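import Pool.Agent.H29.SPL.ScheinRankAsymptoticsProof

namespace Pool.Agent.Results.MP_72bf7f_co.ScheinRankAsymptotics

open Filter Finset Pool.Agent.H38.Schein

theorem result :
    Tendsto (fun n : ℕ => p n / (2 * n * (1 / 2) ^ n * S n)) atTop (nhds 1) ∧
    Tendsto (fun n : ℕ => (Real.logb 2 (p n) + n) / (Real.logb 2 n) ^ 2) atTop (nhds 1) ∧
    Tendsto p atTop (nhds 0) :=
  result_proof

end Pool.Agent.Results.MP_72bf7f_co.ScheinRankAsymptotics
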